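import Pool.Agent.Helper130.Odell.Final

set_option autoImplicit false

open Filter Topology

namespace Pool.Agent.Results.MP_a65952_an.OdellNo

universe u v w

/-- The Banach–Mazur distance `inf ‖T‖ ‖T⁻¹‖` over all linear isomorphisms `T` of `Y` onto `Z`
(used only for isomorphic spaces). -/
noncomputable def bmDist (𝕜 : Type u) [RCLike 𝕜] (Y : Type v) [NormedAddCommGroup Y]
    [NormedSpace 𝕜 Y] (Z : Type w) [NormedAddCommGroup Z] [NormedSpace 𝕜 Z] : ℝ :=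
  sInf {r : ℝ | ∃ T : Y ≃L[𝕜] Z, r = ‖(T : Y →L[𝕜] Z)‖ * ‖(T.symm : Z →L[𝕜] Y)‖}

open Pool.Agent.Helper130.Odell

theorem exists_scaled {𝕜 : Type u} [RCLike 𝕜] {Y : Type v} [NormedAddCommGroup Y]
    [NormedSpace 𝕜 Y] [Nontrivial Y] {Z : Type w} [NormedAddCommGroup Z] [NormedSpace 𝕜 Z]
    (hne : Nonempty (Y ≃L[𝕜] Z)) (h : bmDist 𝕜 Y Z = 1) (ε : ℝ) (hε : 0 < ε) :
    ∃ T : Y ≃L[𝕜] Z, ‖(T : Y →L[𝕜] Z)‖ ≤ 1 + ε ∧ ‖(T.symm : Z →L[𝕜] Y)‖ ≤ 1 + ε := by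
  obtain ⟨T₀⟩ := hne
  obtain ⟨r, ⟨T, rfl⟩, hr⟩ := exists_lt_of_csInf_lt (s := {r : ℝ | ∃ T : Y ≃L[𝕜] Z,
      r = ‖(T : Y →L[𝕜] Z)‖ * ‖(T.symm : Z →L[𝕜] Y)‖}) ⟨_, T₀, rfl⟩
    (b := 1 + ε) (by
      change bmDist 𝕜 Y Z < 1 + ε
      rw [h]
      linarith)
  obtain ⟨y, hy⟩ := exists_ne (0 : Y)
  have ha : 0 < ‖(T : Y →L[𝕜] Z)‖ := by
    rw [norm_pos_iff]
    intro h0
    have h1 := congrArg (fun S : Y →L[𝕜] Z => S y) h0
    simp only [ContinuousLinearEquiv.coe_coe, _root_.zero_apply] at h1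
    exact hy (T.map_eq_zero_iff.mp h1)
  set a := ‖(T : Y →L[𝕜] Z)‖ with hadef
  have ha' : ((a⁻¹ : ℝ) : 𝕜) ≠ 0 := by
    rw [Ne, RCLike.ofReal_eq_zero]
    exact inv_ne_zero ha.ne'
  let T' : Y ≃L[𝕜] Z := (ContinuousLinearEquiv.smulLeft (Units.mk0 ((a⁻¹ : ℝ) : 𝕜) ha')).trans T
  have hT' : ∀ y, T' y = ((a⁻¹ : ℝ) : 𝕜) • T y := fun y => by
    change T (((a⁻¹ : ℝ) : 𝕜) • y) = _
    rw [map_smul]
  have hT's : ∀ z, T'.symm z = ((a : ℝ) : 𝕜) • T.symm z := fun z => by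
    rw [ContinuousLinearEquiv.symm_apply_eq, hT', map_smul, T.apply_symm_apply, smul_smul,
      ← RCLike.ofReal_mul, inv_mul_cancel₀ ha.ne', RCLike.ofReal_one, one_smul]
  refine ⟨T', ContinuousLinearMap.opNorm_le_bound _ (by linarith) fun y => ?_,
    ContinuousLinearMap.opNorm_le_bound _ (by linarith) fun z => ?_⟩
  · change ‖T' y‖ ≤ _
    rw [hT', norm_smul, RCLike.norm_ofReal, abs_of_nonneg (by positivity)]
    have h1 : ‖T y‖ ≤ a * ‖y‖ := (T : Y →L[𝕜] Z).le_opNorm y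
    calc a⁻¹ * ‖T y‖ ≤ a⁻¹ * (a * ‖y‖) := by gcongr
      _ = 1 * ‖y‖ := by field_simp
      _ ≤ (1 + ε) * ‖y‖ := by gcongr; linarith
  · change ‖T'.symm z‖ ≤ _
    rw [hT's, norm_smul, RCLike.norm_ofReal, abs_of_nonneg ha.le]
    have h1 : ‖T.symm z‖ ≤ ‖(T.symm : Z →L[𝕜] Y)‖ * ‖z‖ := (T.symm : Z →L[𝕜] Y).le_opNorm z
    calc a * ‖T.symm z‖ ≤ a * (‖(T.symm : Z →L[𝕜] Y)‖ * ‖z‖) := by gcongr
      _ = (a * ‖(T.symm : Z →L[𝕜] Y)‖) * ‖z‖ := by ring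
      _ ≤ (1 + ε) * ‖z‖ := by gcongr

/-- **Answer to Odell's question: no.** Over either scalar field there is an infinite-dimensional
separable Banach space `X` such that any two spaces isomorphic to `X` and at Banach–Mazur distance
`1` from each other are isometric. -/
theorem result (𝕜 : Type u) [RCLike 𝕜] :
    ∃ (X : Type u) (_ : NormedAddCommGroup X) (_ : NormedSpace 𝕜 X),
      CompleteSpace X ∧ TopologicalSpace.SeparableSpace X ∧ ¬ FiniteDimensional 𝕜 X ∧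
      ∀ (Y : Type v) [NormedAddCommGroup Y] [NormedSpace 𝕜 Y]
        (Z : Type w) [NormedAddCommGroup Z] [NormedSpace 𝕜 Z],
        Nonempty (X ≃L[𝕜] Y) → Nonempty (X ≃L[𝕜] Z) → bmDist 𝕜 Y Z = 1 →
          Nonempty (Y ≃ₗᵢ[𝕜] Z) := by
  refine ⟨TX 𝕜, inferInstance, inferInstance, inferInstance, TX.separable,
    TX.not_finiteDimensional, ?_⟩
  intro Y _ _ Z _ _ ⟨JY⟩ ⟨JZ⟩ hd
  have hYc : CompleteSpace Y :=
    (JY.symm.isUniformEmbedding.isUniformInducing.completeSpace_congr JY.symm.surjective).mpr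
      inferInstance
  have hZc : CompleteSpace Z :=
    (JZ.symm.isUniformEmbedding.isUniformInducing.completeSpace_congr JZ.symm.surjective).mpr
      inferInstance
  have hYn : Nontrivial Y := by
    by_contra hcon
    rw [not_nontrivial_iff_subsingleton] at hcon
    have : FiniteDimensional 𝕜 Y := inferInstance
    exact TX.not_finiteDimensional (Module.Finite.equiv JY.symm.toLinearEquiv)
  choose T h1 h2 using fun n : ℕ => exists_scaled (𝕜 := 𝕜) (Y := Y) (Z := Z)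
    ⟨JY.symm.trans JZ⟩ hd (1 / ((n : ℝ) + 1)) (by positivity)
  refine rigid (TX.good.of_equiv JY) (TX.good.of_equiv JZ) T
    (fun n => 1 + 1 / ((n : ℝ) + 1)) ?_ h1 h2
  have := (tendsto_one_div_add_atTop_nhds_zero_nat (𝕜 := ℝ)).const_add 1
  simpa using this

end Pool.Agent.Results.MP_a65952_an.OdellNo
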